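import Pool.Agent.Q99.SC.Sep

/-!
# André's supercharacter theory is the coarsest one containing the single-box characters
-/

set_option autoImplicit false
set_option linter.style.haveILetI false

open scoped BigOperators
open Pool.Agent.Helper884 Pool.Agent.Q99.SC

noncomputable section

namespace Pool.Agent.Results.MP_1f99fc_al.AndreIsCoarsest

/-- The function `σ_S = ∑_{ψ ∈ S} ψ(1) ψ` attached to a set `S` of irreducible characters. -/
def sigma {G : Type} [Group G] (S : Set (G → ℂ)) (g : G) : ℂ := ∑ᶠ ψ ∈ S, ψ 1 * ψ g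

/-- A supercharacter theory of the (finite) group `G`. -/
structure SupercharacterTheory (G : Type) [Group G] where
  /-- the partition `𝒳` of the set of the irreducible characters -/
  X : Set (Set (G → ℂ))
  /-- the partition `𝒦` of the group -/
  K : Set (Set G)
  /-- the blocks of `𝒳` consist of irreducible characters -/
  X_irr : ∀ S ∈ X, ∀ χ ∈ S, IC.IsIrrChar χ
  /-- the blocks of `𝒳` are not empty -/
  X_nonempty : ∀ S ∈ X, S.Nonempty
  /-- every irreducible character lies in exactly one block of `𝒳` -/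
  X_cover : ∀ χ : G → ℂ, IC.IsIrrChar χ → ∃! S, S ∈ X ∧ χ ∈ S
  /-- `𝒦` is a partition of `G` -/
  K_part : Setoid.IsPartition K
  /-- there are as many supercharacters as superclasses -/
  card_eq : Nat.card X = Nat.card K
  /-- `{1}` is a superclass -/
  one_mem : {1} ∈ K
  /-- the supercharacters are constant on the superclasses -/
  const : ∀ S ∈ X, ∀ C ∈ K, ∀ g ∈ C, ∀ h ∈ C, sigma S g = sigma S h

variable {n : ℕ} {F : Type} [Field F] [Finite F]

/-- André's superclass of `g`: the set of the `h ∈ U` with `h - 1 ∈ U (g - 1) U`. -/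
def superclass (g : UT n F) : Set (UT n F) :=
  {h | ∃ u v : UT n F, mt h - 1 = mt u * (mt g - 1) * mt v}

/-- The function `g ↦ ∑_{ν ∈ U μ U} θ(ν(g - 1))` attached to a functional `μ ∈ 𝔫^*`, where
`(u μ v)(y) = μ(u y v)`. -/
def andre (θ : AddChar F ℂ) (μ : Module.Dual F (NN n F)) (g : UT n F) : ℂ :=
  ∑ᶠ ν ∈ {ν : Module.Dual F (NN n F) | ∃ u v : UT n F, ∀ y, ν y = μ (tw u v y)}, θ (ν (dl g))

/-- The theory `T` contains, as irreducible characters, all the single-box supercharacters: for all
`i < j` and `a ≠ 0` there is an irreducible character `χ` that is a positive multiple of the function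
attached to the functional `y ↦ a y_{ij}`, and `{χ}` is a block of `T`. -/
def ContainsSingleBoxes (θ : AddChar F ℂ) (T : SupercharacterTheory (UT n F)) : Prop :=
  ∀ i j : Fin n, i < j → ∀ a : F, a ≠ 0 → ∃ χ : UT n F → ℂ, IC.IsIrrChar χ ∧ {χ} ∈ T.X ∧
    ∃ c : ℝ, 0 < c ∧ ∀ g, χ g = c * andre θ (bx i j a) g

theorem andre_eq (θ : AddChar F ℂ) (μ : DD n F) : andre θ μ = ff θ (qD μ) := by
  classical
  funext g
  unfold andre ff
  rw [finsum_mem_eq_finite_toFinset_sum _ (Set.toFinite _)]
  refine Finset.sum_congr ?_ fun _ _ => rfl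
  ext ν
  rw [Set.Finite.mem_toFinset, mem_oD, Set.mem_ofPred_eq]
  constructor
  · rintro ⟨u, v, h⟩
    exact (qD_eq.mpr ⟨u, v, LinearMap.ext h⟩).symm
  · intro h
    obtain ⟨u, v, h2⟩ := qD_eq.mp h.symm
    exact ⟨u, v, fun y => by rw [h2]; rfl⟩

theorem mem_superclass {g h : UT n F} : h ∈ superclass g ↔ relK g h := by
  constructor
  · rintro ⟨u, v, e⟩
    exact ⟨u, v, Subtype.ext e⟩
  · rintro ⟨u, v, e⟩
    exact ⟨u, v, congrArg Subtype.val e⟩

theorem relK_symm {g h : UT n F} (e : relK g h) : relK h g := (stK n F).symm e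

theorem sigma_XX {θ : AddChar F ℂ} (hθ : θ ≠ 1) (i : QD n F) (g : UT n F) :
    sigma (XX (ff θ i)) g = ff θ i g := (e_eq (sys_ff hθ) i g).symm

theorem XX_inj {θ : AddChar F ℂ} (hθ : θ ≠ 1) :
    Function.Injective (fun i : QD n F => XX (ff θ i)) := by
  intro i j h
  obtain ⟨χ, hχ⟩ := XX_nonempty (sys_ff (n := n) hθ) i
  have h' : XX (ff θ i) = XX (ff θ j) := h
  exact XX_disj (sys_ff hθ) hχ (h' ▸ hχ)

theorem ff_relK (θ : AddChar F ℂ) (i : QD n F) {g h : UT n F} (e : relK g h) :
    ff θ i h = ff θ i g := by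
  obtain ⟨u, v, e⟩ := e
  exact ff_tw θ i g h u v e

/-- André's supercharacter theory. -/
def andreTheory {θ : AddChar F ℂ} (hθ : θ ≠ 1) : SupercharacterTheory (UT n F) where
  X := Set.range fun i : QD n F => XX (ff θ i)
  K := (stK n F).classes
  X_irr := by
    rintro _ ⟨i, rfl⟩ χ hχ
    exact hχ.1
  X_nonempty := by
    rintro _ ⟨i, rfl⟩
    exact XX_nonempty (sys_ff hθ) i
  X_cover := by
    intro χ hχ
    obtain ⟨i, hi⟩ := XX_cover (sys_ff (n := n) hθ) hχ
    refine ⟨XX (ff θ i), ⟨⟨i, rfl⟩, hi⟩, ?_⟩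
    rintro _ ⟨⟨j, rfl⟩, hj⟩
    have hj' : χ ∈ XX (ff θ j) := hj
    rw [XX_disj (sys_ff hθ) hi hj']
  K_part := Setoid.isPartition_classes _
  card_eq := by
    rw [Nat.card_range_of_injective (XX_inj hθ), card_QD_eq hθ]
    exact Nat.card_congr (Setoid.quotientEquivClasses (stK n F))
  one_mem := by
    refine ⟨1, ?_⟩
    ext g
    constructor
    · rintro rfl
      exact (stK n F).refl 1
    · rintro ⟨u, v, e⟩
      rw [dl_one] at e
      have h1 : dl g = 0 := by
        have := tw_inv_left u v (dl g)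
        rw [← e, map_zero] at this
        exact this.symm
      exact dl_inj (h1.trans dl_one.symm)
  const := by
    rintro _ ⟨i, rfl⟩ C ⟨k, rfl⟩ g hg h hh
    change sigma (XX (ff θ i)) g = sigma (XX (ff θ i)) h
    rw [sigma_XX hθ, sigma_XX hθ]
    have h1 : relK g k := hg
    have h2 : relK h k := hh
    rw [← ff_relK θ i h1, ← ff_relK θ i h2]

/-- Let `F` be a finite field, `U = U_n(F)` and let `θ` be a nontrivial additive character of `F`.
There is a supercharacter theory `A` of `U` (André's) whose superclasses are the sets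
`{h | h - 1 ∈ U (g - 1) U}` and whose functions `σ_S` are the functions
`g ↦ ∑_{ν ∈ U μ U} θ(ν(g - 1))`, which contains all the single-box supercharacters as irreducible
characters, and which is the coarsest supercharacter theory with this property: every block of the
partition of `U` of every supercharacter theory `T` of `U` that contains all the single-box
supercharacters lies in a superclass of `A`. -/
theorem result (n : ℕ) (F : Type) [Field F] [Finite F] (θ : AddChar F ℂ) (hθ : θ ≠ 1) :
    ∃ A : SupercharacterTheory (UT n F),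
      A.K = {C | ∃ g : UT n F, C = superclass g} ∧
      {s | ∃ S ∈ A.X, s = sigma S} = {s | ∃ μ : Module.Dual F (NN n F), s = andre θ μ} ∧
      ContainsSingleBoxes θ A ∧
      ∀ T : SupercharacterTheory (UT n F), ContainsSingleBoxes θ T →
        ∀ C ∈ T.K, ∃ D ∈ A.K, C ⊆ D := by
  refine ⟨andreTheory hθ, ?_, ?_, ?_, ?_⟩
  · ext C
    constructor
    · rintro ⟨g, rfl⟩
      refine ⟨g, ?_⟩
      ext h
      rw [mem_superclass]
      exact ⟨fun h1 => relK_symm h1, fun h1 => relK_symm h1⟩
    · rintro ⟨g, rfl⟩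
      refine ⟨g, ?_⟩
      ext h
      rw [mem_superclass]
      exact ⟨fun h1 => relK_symm h1, fun h1 => relK_symm h1⟩
  · ext s
    constructor
    · rintro ⟨_, ⟨i, rfl⟩, rfl⟩
      obtain ⟨μ, rfl⟩ := Quotient.exists_rep i
      refine ⟨μ, ?_⟩
      rw [andre_eq]
      funext g
      exact sigma_XX hθ _ g
    · rintro ⟨μ, rfl⟩
      refine ⟨XX (ff θ (qD μ)), ⟨qD μ, rfl⟩, ?_⟩
      rw [andre_eq]
      funext g
      exact (sigma_XX hθ _ g).symm
  · intro i j hij a _
    obtain ⟨ψ, h1, h2, h3⟩ := box_irr hθ hij a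
    refine ⟨ψ, h1, ⟨qD (bx i j a), h2⟩, ?_⟩
    obtain ⟨m, hm, hm1⟩ := Pool.Agent.H254R3.IN.IsIrr.deg h1
    refine ⟨(m : ℝ)⁻¹, inv_pos.mpr (by exact_mod_cast hm), fun g => ?_⟩
    rw [andre_eq, h3, ← hm1]
    push_cast
    rw [← mul_assoc, inv_mul_cancel₀ (by exact_mod_cast hm.ne'), one_mul]
  · intro T hT C hC
    obtain ⟨g, hg⟩ : C.Nonempty := by
      rw [Set.nonempty_iff_ne_empty]
      rintro rfl
      exact T.K_part.1 hC
    refine ⟨superclass g, ⟨g, ?_⟩, ?_⟩
    · ext h
      rw [mem_superclass]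
      exact ⟨fun h1 => relK_symm h1, fun h1 => relK_symm h1⟩
    · intro h hh
      rw [mem_superclass]
      apply sep_box hθ
      intro i j hij a ha
      obtain ⟨χ, h1, h2, c, hc, h3⟩ := hT i j hij a ha
      have h4 := T.const _ h2 C hC g hg h hh
      unfold sigma at h4
      rw [finsum_mem_singleton, finsum_mem_singleton] at h4
      have h5 : χ g = χ h := mul_left_cancel₀ (Pool.Agent.H254R3.IN.IsIrr.one_ne h1) h4
      rw [h3, h3, andre_eq] at h5
      have hc' : (c : ℂ) ≠ 0 := by exact_mod_cast hc.ne'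
      exact mul_left_cancel₀ hc' h5

end Pool.Agent.Results.MP_1f99fc_al.AndreIsCoarsest
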